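import Pool.Agent.R831.CI

/-!
# Persistence of complete intersection and primeness for hypergraph LSS ideals
-/

namespace Pool.Agent.Results.MP_3122b6_ag.Persistence

open R831.Hyper

/-- **Persistence.** Let `K` be a field, `E` a clutter of nonempty subsets of `{0, …, n-1}` and
`d ≥ 1`. If `L_E(d)` is a complete intersection, so is `L_E(d+1)` (Q1). If `L_E(d)` is prime, so
is `L_E(d+1)` (Q2). Moreover a prime `L_E(d)` is a complete intersection. -/
theorem result (K : Type*) [Field K] (n d : ℕ) (hd : 1 ≤ d) (E : Finset (Finset (Fin n)))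
    (hE : IsClutter E) :
    (IsCI (lss K n d E) → IsCI (lss K n (d + 1) E)) ∧
    ((lss K n d E).IsPrime → (lss K n (d + 1) E).IsPrime) ∧
    ((lss K n d E).IsPrime → IsCI (lss K n d E)) :=
  ⟨isCI_succ hE hd, prime_succ hE hd, isCI_of_prime hE hd⟩

end Pool.Agent.Results.MP_3122b6_ag.Persistence
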